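import Pool.Agent.Y714.KI.Up
import Pool.Agent.Y508.KI.Hid
import Pool.Agent.Y891.KI.Step
import Pool.Agent.Y369.KI.Divb
import Pool.Agent.Y65.KI.Sst

set_option autoImplicit false

/-! Project KI: the final statement. Heights and norms of ideals by helper508, neighbouring lattices
by helper891, ideals with bounded prime powers by helper369, semistable models by helper65. -/

namespace Pool.Agent.Y714.KI

open Pool.Agent.Y714.KW (Mon)
open NumberField Module

theorem final (F : Type) [Field F] [NumberField F] (N : ℕ)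
    (hN : 2 ≤ N) (e : Ix N → ℕ) (he : ∀ i, 0 < e i) (h2e : ∀ i, 2 * e i < ∑ j, e j) :
    ∃ C : ℝ, ∀ T : ℝ, 1 ≤ T →
      {t ∈ U F N | Height.mulHeight (fun m : Mon (fun i => 2 * e i) => mX (pt t) m) ≤ T ^ 2}.Finite ∧
      ({t ∈ U F N | Height.mulHeight (fun m : Mon (fun i => 2 * e i) => mX (pt t) m) ≤
        T ^ 2}.ncard : ℝ) ≤
        C * T ^ sInf {t : ℝ | ∀ i, 0 ≤ t * e i - 2 ∧ 2 * (t * e i - 2) ≤
          ∑ j, (t * (e j : ℝ) - 2)} * (1 + Real.log T) ^ (N + 2) :=
  upper Y508.KI.hid (Y65.KI.sst Y891.KI.step Y369.KI.divb) F N hN e he h2e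

end Pool.Agent.Y714.KI
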