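import Pool.Agent.Y714.KI.Stm
import Pool.Agent.Y714.KG.Fin

set_option autoImplicit false
set_option linter.unusedSectionVars false
set_option linter.unusedVariables false

/-! Project KI: the split case, comparison with the Weil height. -/

namespace Pool.Agent.Y714.KI

open Pool.Agent.Y714.KE (Al FA FU Em Ux dg cf cp vc cn nA sm un)
open Pool.Agent.Y714.KF (FI sp ct nm pm ext br)
open Pool.Agent.Y714.KW (Mon)
open Pool.Agent.Y714.KG
open NumberField FractionalIdeal Module Finset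
open scoped nonZeroDivisors

section

variable {F : Type} [Field F] [NumberField F] {ι : Type} [Fintype ι] [DecidableEq ι]

/-- the pair of elements of the split algebra -/
def PX (X : ι → F × F) : Al (fun _ : ι => F) × Al (fun _ : ι => F) :=
  (fun i => (X i).1, fun i => (X i).2)

theorem PX_gX (a b c d : F) (X : ι → F × F) : glF F a b c d (PX X) = PX (gX a b c d X) := rfl

theorem cn_PX (X : ι → F × F) (i : ι) : cn (PX X) i = cX X i := rfl

/-- a fibre of the split algebra -/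
def fibE (w : F →+* ℂ) : Ef F (fun _ : ι => F) w ≃ ι where
  toFun a := a.1.1
  invFun i := ⟨⟨i, w⟩, by ext x; rfl⟩
  left_inv := by
    rintro ⟨⟨i, σ⟩, h⟩
    apply Subtype.ext
    have h1 : w = σ := by
      rw [← h]
      ext x
      rfl
    simp only
    rw [h1]
  right_inv i := rfl

theorem emb_eq (w : F →+* ℂ) (a : Ef F (fun _ : ι => F) w) : a.1.2 = w := by
  obtain ⟨⟨i, σ⟩, h⟩ := a
  have h1 : w = σ := by
    rw [← h]
    ext x
    rfl
  exact h1.symm

/-- reindexing of monomials -/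
def monE (w : F →+* ℂ) (d : ι → ℕ) :
    Mon (fun a : Ef F (fun _ : ι => F) w => d a.1.1) ≃ Mon d where
  toFun m := ⟨fun q => m.1 ((fibE w).symm q.1, (fibE w).symm q.2), by
    intro i
    have h := m.2 ((fibE w).symm i)
    rw [← Equiv.sum_comp (fibE w).symm] at h
    exact h⟩
  invFun m := ⟨fun q => m.1 (fibE w q.1, fibE w q.2), by
    intro a
    have h := m.2 (fibE w a)
    rw [← Equiv.sum_comp (fibE w)] at h
    exact h⟩
  left_inv m := by
    apply Subtype.ext
    funext q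
    simp
  right_inv m := by
    apply Subtype.ext
    funext q
    simp

theorem szF_PX (d : ι → ℕ) (X : ι → F × F) : szF F d (vc (PX X)) =
    ∏ w : F →+* ℂ, ⨆ m : Mon d, ‖w (mX X m)‖ := by
  unfold szF
  refine prod_congr rfl fun w _ => ?_
  rw [← (monE w d).iSup_comp]
  congr 1
  funext m
  unfold mX
  rw [map_prod, norm_prod]
  rw [← Fintype.prod_equiv ((fibE (ι := ι) w).prodCongr (fibE w))
    (fun q => ‖br (vc (PX X) q.1.1) (vc (PX X) q.2.1)‖ ^ m.1 q)]
  intro q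
  have h1 : w (bX X (fibE w q.1) (fibE w q.2)) = br (vc (PX X) q.1.1) (vc (PX X) q.2.1) := by
    change w ((X q.1.1.1).1 * (X q.2.1.1).2 - (X q.1.1.1).2 * (X q.2.1.1).1) =
      q.1.1.2 (X q.1.1.1).1 * q.2.1.2 (X q.2.1.1).2 - q.1.1.2 (X q.1.1.1).2 * q.2.1.2 (X q.2.1.1).1
    rw [emb_eq w q.1, emb_eq w q.2]
    simp only [map_sub, map_mul]
  have h2 : ((monE w d) m).1 (fibE w q.1, fibE w q.2) = m.1 q := by
    change m.1 ((fibE w).symm (fibE w q.1), (fibE w).symm (fibE w q.2)) = m.1 q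
    rw [Equiv.symm_apply_apply, Equiv.symm_apply_apply]
  simp only [Equiv.prodCongr_apply, Prod.map_fst, Prod.map_snd]
  rw [map_pow, norm_pow]
  have h3 : (monE w d m).1 (Prod.map (fibE w) (fibE w) q) = m.1 q := h2
  rw [h3, h1]

theorem NDF_PX {X : ι → F × F} (h : ∀ i j, i ≠ j → bX X i j ≠ 0) : NDF F (PX X) := by
  rintro ⟨i, σ⟩ ⟨j, τ⟩ hne hrs
  have h1 : σ = τ := by
    have := hrs
    ext x
    exact congrArg (fun f : F →+* ℂ => f x) this
  subst h1
  have hij : i ≠ j := fun h2 => hne (by rw [h2])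
  have h2 : br (vc (PX X) ⟨i, σ⟩) (vc (PX X) ⟨j, σ⟩) = σ (bX X i j) := by
    unfold bX KF.br KE.vc PX
    simp only [map_sub, map_mul]
  rw [h2]
  exact (_root_.map_ne_zero _).2 (h i j hij)

theorem bX_gX (a b c d : F) (X : ι → F × F) (i j : ι) :
    bX (gX a b c d X) i j = (a * d - b * c) * bX X i j := by
  unfold bX gX
  ring

theorem mX_gX {e : ι → ℕ} (a b c d : F) (X : ι → F × F) (m : Mon fun i => 2 * e i) :
    mX (gX a b c d X) m = (a * d - b * c) ^ (∑ i, e i) * mX X m := by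
  unfold mX
  have h1 : ∀ q ∈ (univ : Finset (ι × ι)), bX (gX a b c d X) q.1 q.2 ^ m.1 q =
      (a * d - b * c) ^ m.1 q * bX X q.1 q.2 ^ m.1 q := by
    intro q _
    rw [bX_gX, mul_pow]
  rw [prod_congr rfl h1, prod_mul_distrib, prod_pow_eq_pow_sum]
  congr 2
  have h2 : ∑ i, ∑ j, (m.1 (i, j) + m.1 (j, i)) = ∑ i, 2 * e i := sum_congr rfl fun i _ => m.2 i
  have h3 : ∑ i, ∑ j, (m.1 (i, j) + m.1 (j, i)) = 2 * ∑ q : ι × ι, m.1 q := by
    simp only [sum_add_distrib]
    rw [sum_comm (f := fun i j => m.1 (j, i)), Fintype.sum_prod_type]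
    ring
  rw [← mul_sum] at h2
  omega

open Classical in
/-- the comparison -/
theorem hdF_le (hHID : S_HID) (hSST : S_SST) (e : ι → ℕ) (he : ∀ i, 0 < e i)
    (h2e : ∀ i, 2 * e i ≤ ∑ j, e j) : ∃ C : ℝ, 0 < C ∧ ∀ X : ι → F × F,
      (∀ i j, i ≠ j → bX X i j ≠ 0) → (∃ m : Mon (fun i => 2 * e i), mX X m ≠ 0) →
      hdF F (fun i => 2 * e i) (PX X) ≤
        C * Height.mulHeight fun m : Mon (fun i => 2 * e i) => mX X m := by
  have hfin : Fintype (Mon fun i => 2 * e i) := Fintype.ofFinite _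
  obtain ⟨C, hC, h⟩ := hSST F ι e he h2e
  refine ⟨C, hC, fun X hX hm => ?_⟩
  obtain ⟨a, b, c, d, hdet, hle⟩ := h X hX
  have hE : (a * d - b * c) ^ (∑ i, e i) ≠ 0 := pow_ne_zero _ hdet
  have h1 : Height.mulHeight (fun m : Mon (fun i => 2 * e i) => mX X m) =
      Height.mulHeight (fun m : Mon (fun i => 2 * e i) => mX (gX a b c d X) m) := by
    have h2 : (fun m : Mon (fun i => 2 * e i) => mX (gX a b c d X) m) =
        ((a * d - b * c) ^ (∑ i, e i)) • (fun m : Mon (fun i => 2 * e i) => mX X m) := by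
      funext m
      rw [mX_gX]
      rfl
    rw [h2, Height.mulHeight_smul_eq_mulHeight _ hE]
  obtain ⟨m₀, hm₀⟩ := hm
  have hne : ∃ m : Mon (fun i => 2 * e i), mX (gX a b c d X) m ≠ 0 :=
    ⟨m₀, by rw [mX_gX]; exact mul_ne_zero hE hm₀⟩
  rw [h1, hHID F _ _ hne]
  have hcd : hdF F (fun i => 2 * e i) (PX X) ≤
      hsF F (fun i => 2 * e i) (PX (gX a b c d X)) :=
    csInf_le ⟨0, by rintro _ ⟨a, b, c, d, _, rfl⟩; exact hsF_nonneg _ _⟩
      ⟨a, b, c, d, hdet, by rw [PX_gX]⟩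
  refine hcd.trans ?_
  unfold hsF
  rw [szF_PX]
  have hS : (0 : ℝ) ≤ ∏ w : F →+* ℂ, ⨆ m : Mon (fun i => 2 * e i),
      ‖w (mX (gX a b c d X) m)‖ :=
    prod_nonneg fun w _ => Real.iSup_nonneg fun m => norm_nonneg _
  have hMpos : (0 : ℝ) < ((nm (∑ m : Mon (fun i => 2 * e i), sp (mX (gX a b c d X) m)) : ℚ) : ℝ) := by
    have h3 : (∑ m : Mon (fun i => 2 * e i), sp (mX (gX a b c d X) m)) ≠ 0 := by
      obtain ⟨m, hm⟩ := hne
      intro h0
      have h4 : sp (mX (gX a b c d X) m) ≤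
          ∑ m : Mon (fun i => 2 * e i), sp (mX (gX a b c d X) m) := by
        rw [← add_sum_erase _ _ (mem_univ m)]
        exact le_self_add
      rw [h0] at h4
      exact KF.sp_ne hm (le_antisymm h4 (zero_le _))
    have := KF.nm_pos h3
    exact_mod_cast this
  have hcpos : (0 : ℝ) < ∏ i, ((nm (cn (PX (gX a b c d X)) i) : ℚ) : ℝ) ^ (2 * e i) := by
    have h5 : ((0 : ℝ) < ∏ i, ((nm (cX (gX a b c d X) i) : ℚ) : ℝ) ^ (2 * e i)) := by
      by_contra hcon
      push Not at hcon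
      have := hMpos.trans_le (hle.trans (mul_nonpos_of_nonneg_of_nonpos hC.le hcon))
      exact lt_irrefl _ this
    exact h5
  rw [div_le_iff₀ hcpos]
  have hle' : ((nm (∑ m : Mon (fun i => 2 * e i), sp (mX (gX a b c d X) m)) : ℚ) : ℝ) ≤
      C * ∏ i, ((nm (cn (PX (gX a b c d X)) i) : ℚ) : ℝ) ^ (2 * e i) := hle
  rw [mul_div_assoc', div_mul_eq_mul_div, le_div_iff₀ hMpos]
  have := mul_le_mul_of_nonneg_left hle' hS
  nlinarith

end

end Pool.Agent.Y714.KI
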