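import Pool.Agent.Y714.KH.Stm
import Pool.Agent.Y714.ML.Fin

set_option autoImplicit false
set_option linter.unusedSectionVars false
set_option linter.unusedVariables false

/-! Project KI: the Weil height. Statements. -/

namespace Pool.Agent.Y714.KI

open Pool.Agent.Y714.KF (FI sp nm)
open Pool.Agent.Y714.KW (Mon)
open NumberField FractionalIdeal Module Finset
open scoped nonZeroDivisors

/-- HID: the height of a tuple and the norm of the ideal -/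
def S_HID : Prop := ∀ (F : Type) [Field F] [NumberField F] (ι : Type) [Fintype ι] (x : ι → F),
  (∃ i, x i ≠ 0) → Height.mulHeight x =
    (∏ w : F →+* ℂ, ⨆ i, ‖w (x i)‖) / ((nm (∑ i, sp (x i)) : ℚ) : ℝ)

section

variable {F : Type} [Field F] {ι : Type} [Fintype ι]

/-- the brackets -/
def bX (X : ι → F × F) (i j : ι) : F := (X i).1 * (X j).2 - (X i).2 * (X j).1

/-- the monomials -/
def mX {d : ι → ℕ} (X : ι → F × F) (m : Mon d) : F := ∏ q : ι × ι, bX X q.1 q.2 ^ m.1 q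

/-- change of basis -/
def gX (a b c d : F) (X : ι → F × F) : ι → F × F :=
  fun i => (a * (X i).1 + b * (X i).2, c * (X i).1 + d * (X i).2)

variable [NumberField F]

/-- the content of one point -/
noncomputable def cX (X : ι → F × F) (i : ι) : FI F := sp (X i).1 + sp (X i).2

end

/-- STEP: a neighbouring lattice -/
def S_STEP : Prop := ∀ (F : Type) [Field F] [NumberField F], ∃ C : ℝ, 0 < C ∧
  ∀ (v : Ideal (𝓞 F)), v.IsPrime → v ≠ ⊥ → ∀ (D : ℕ) (ι : Type) [Fintype ι] (X : ι → F × F)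
    (i₀ : ι), (X i₀).1 ≠ 0 ∨ (X i₀).2 ≠ 0 →
    ∃ a b c d : F, a * d - b * c ≠ 0 ∧
      (|Algebra.norm ℚ (a * d - b * c)| : ℝ) ≤ C * ((Ideal.absNorm v : ℕ) : ℝ) ^ D ∧
      (∀ j, cX (gX a b c d X) j ≤ cX X j) ∧
      ∀ j, bX X i₀ j ∈ cX X i₀ * cX X j * ((v ^ D : Ideal (𝓞 F)) : FI F) →
        cX (gX a b c d X) j ≤ ((v ^ D : Ideal (𝓞 F)) : FI F) * cX X j

/-- DIVB: ideals with bounded prime powers -/
def S_DIVB : Prop := ∀ (F : Type) [Field F] [NumberField F] (W : ℝ) (k : ℕ), ∃ C : ℝ, 0 < C ∧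
  ∀ n : Ideal (𝓞 F), n ≠ ⊥ →
    (∀ v : Ideal (𝓞 F), v.IsPrime → v ≠ ⊥ → n ≤ v → ((Ideal.absNorm v : ℕ) : ℝ) ≤ W) →
    (∀ v : Ideal (𝓞 F), v.IsPrime → v ≠ ⊥ → ¬ n ≤ v ^ k) → ((Ideal.absNorm n : ℕ) : ℝ) ≤ C

/-- SST: semistable models -/
def S_SST : Prop := ∀ (F : Type) [Field F] [NumberField F] (ι : Type) [Fintype ι] [DecidableEq ι]
  (e : ι → ℕ), (∀ i, 0 < e i) → (∀ i, 2 * e i ≤ ∑ j, e j) →
  ∀ [Fintype (Mon fun i => 2 * e i)], ∃ C : ℝ, 0 < C ∧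
  ∀ X : ι → F × F, (∀ i j, i ≠ j → bX X i j ≠ 0) → ∃ a b c d : F, a * d - b * c ≠ 0 ∧
    ((nm (∑ m : Mon (fun i => 2 * e i), sp (mX (gX a b c d X) m)) : ℚ) : ℝ) ≤
      C * ∏ i, ((nm (cX (gX a b c d X) i) : ℚ) : ℝ) ^ (2 * e i)

end Pool.Agent.Y714.KI
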