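import Pool.Agent.Y714.KI.Br
import Pool.Agent.Y714.KH.All

set_option autoImplicit false
set_option linter.unusedSectionVars false
set_option linter.unusedVariables false

/-! Project KI: points on the line over a number field, Weil height. -/

namespace Pool.Agent.Y714.KI

open Pool.Agent.Y714.KE (Al FA FU Em Ux dg cf cp vc cn nA sm un)
open Pool.Agent.Y714.KF (FI sp ct nm pm ext br)
open Pool.Agent.Y714.KW (Mon)
open Pool.Agent.Y714.KG
open NumberField FractionalIdeal Module Finset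
open scoped nonZeroDivisors

/-- the labels of the `N + 3` points `∞, 0, 1, t_1, ..., t_N` -/
abbrev Ix (N : ℕ) : Type := Fin 3 ⊕ Fin N

/-- homogeneous coordinates of the points `∞, 0, 1, t_1, ..., t_N` -/
def pt {F : Type} [Field F] {N : ℕ} (t : Fin N → F) : Ix N → F × F
  | Sum.inl i => ![(1, 0), (0, 1), (1, 1)] i
  | Sum.inr j => (t j, 1)

/-- the configurations of distinct points -/
def U (F : Type) [Field F] (N : ℕ) : Set (Fin N → F) :=
  {t | Function.Injective t ∧ ∀ j, t j ≠ 0 ∧ t j ≠ 1}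

section

variable {F : Type} [Field F]

theorem bX_pt {N : ℕ} {t : Fin N → F} (ht : t ∈ U F N) (i j : Ix N) (hij : i ≠ j) :
    bX (pt t) i j ≠ 0 := by
  obtain ⟨h1, h2⟩ := ht
  unfold bX
  rcases i with i | i
  · rcases j with j | j
    · have hij' : i ≠ j := fun h => hij (by rw [h])
      fin_cases i <;> fin_cases j <;> simp_all [pt]
    · have h3 := (h2 j).1
      have h4 := (h2 j).2
      fin_cases i
      · simp [pt]
      · simpa [pt] using h3
      · simp only [pt]
        intro h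
        apply h4
        simp at h
        linear_combination -h
  · rcases j with j | j
    · have h3 := (h2 i).1
      have h4 := (h2 i).2
      fin_cases j
      · simp [pt]
      · simpa [pt] using h3
      · simp only [pt]
        intro h
        apply h4
        simp at h
        linear_combination h
    · have hij' : i ≠ j := fun h => hij (by rw [h])
      simp only [pt]
      intro h
      apply hij'
      apply h1
      linear_combination h

theorem exists_mon {ι : Type} [Fintype ι] [DecidableEq ι] [NumberField F] (e : ι → ℕ)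
    (h2e : ∀ i, 2 * e i ≤ ∑ j, e j) (X : ι → F × F) (hX : ∀ i j, i ≠ j → bX X i j ≠ 0) :
    ∃ m : Mon (fun i => 2 * e i), mX X m ≠ 0 := by
  classical
  obtain ⟨τ, hτ⟩ := ML.exists_perm_of_dense (fun j k : ML.Cop e => ¬ k.1 = j.1)
    (fun j k h1 h2 => h1 h2.symm)
    (fun j => by
      simp only [not_not]
      rw [ML.card_filter_Cop e (fun i => i = j.1), ML.card_Cop]
      rw [Finset.filter_eq', if_pos (mem_univ j.1), sum_singleton]
      exact h2e j.1)
  obtain ⟨σ⟩ : Nonempty (F →+* ℂ) := inferInstance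
  refine ⟨⟨(ML.permMon e τ).1, (ML.permMon e τ).2⟩, ?_⟩
  intro h0
  have h1 := Y794.KW.prod_perm e τ (fun i j => ‖σ (bX X i j)‖)
  have h2 : ∏ q : ι × ι, ‖σ (bX X q.1 q.2)‖ ^ (ML.permMon e τ).1 q = 0 := by
    have h3 : ‖σ (mX X (⟨(ML.permMon e τ).1, (ML.permMon e τ).2⟩ : Mon fun i => 2 * e i))‖ = 0 := by
      rw [h0, map_zero, norm_zero]
    unfold mX at h3
    rw [map_prod, norm_prod] at h3
    simp only [map_pow, norm_pow] at h3
    exact h3
  rw [h2] at h1
  have h4 : 0 < ∏ j : ML.Cop e, ‖σ (bX X j.1 (τ j).1)‖ := by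
    refine prod_pos fun j _ => norm_pos_iff.2 ((_root_.map_ne_zero _).2 (hX _ _ ?_))
    exact fun h => hτ j h.symm
  linarith

theorem pt_inj [NumberField F] {N : ℕ} {t t' : Fin N → F}
    (h : EqF F (PX (pt t)) (PX (pt t'))) : t = t' := by
  obtain ⟨x, a, b, c, d, hx, hdet, h⟩ := h
  have h1 : ∀ i, (pt t' i).1 = x i * (a * (pt t i).1 + b * (pt t i).2) := fun i =>
    congrFun (congrArg Prod.fst h) i
  have h2 : ∀ i, (pt t' i).2 = x i * (c * (pt t i).1 + d * (pt t i).2) := fun i =>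
    congrFun (congrArg Prod.snd h) i
  have e0 := h1 (Sum.inl 0)
  have e0' := h2 (Sum.inl 0)
  have e1 := h1 (Sum.inl 1)
  have e1' := h2 (Sum.inl 1)
  have e2 := h1 (Sum.inl 2)
  have e2' := h2 (Sum.inl 2)
  simp [pt] at e0 e0' e1 e1' e2 e2'
  have hc : c = 0 := e0'.resolve_left (hx _)
  have hb : b = 0 := e1.resolve_left (hx _)
  subst hc
  subst hb
  simp only [add_zero, zero_add] at e2 e2'
  have had : a = d := by
    have h3 : x (Sum.inl 2) * a = x (Sum.inl 2) * d := by rw [← e2, ← e2']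
    exact mul_left_cancel₀ (hx _) h3
  subst had
  funext j
  have f1 := h1 (Sum.inr j)
  have f2 := h2 (Sum.inr j)
  simp [pt] at f1 f2
  have f3 : t' j = x (Sum.inr j) * a * t j := by rw [f1]; ring
  rw [f3, ← f2, one_mul]

end

theorem upper (hHID : S_HID) (hSST : S_SST) (F : Type) [Field F] [NumberField F] (N : ℕ)
    (hN : 2 ≤ N) (e : Ix N → ℕ) (he : ∀ i, 0 < e i) (h2e : ∀ i, 2 * e i < ∑ j, e j) :
    ∃ C : ℝ, ∀ T : ℝ, 1 ≤ T →
      {t ∈ U F N | Height.mulHeight (fun m : Mon (fun i => 2 * e i) => mX (pt t) m) ≤ T ^ 2}.Finite ∧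
      ({t ∈ U F N | Height.mulHeight (fun m : Mon (fun i => 2 * e i) => mX (pt t) m) ≤
        T ^ 2}.ncard : ℝ) ≤
        C * T ^ sInf {t : ℝ | ∀ i, 0 ≤ t * e i - 2 ∧ 2 * (t * e i - 2) ≤
          ∑ j, (t * (e j : ℝ) - 2)} * (1 + Real.log T) ^ (N + 2) := by
  classical
  have hfr : finrank F F = 1 := Module.finrank_self F
  have hdF : dF F (fun _ : Ix N => F) = N + 3 := by
    unfold dF
    simp
    omega
  have hfuj : fujF F (fun _ : Ix N => F) e = sInf {t : ℝ | ∀ i, 0 ≤ t * e i - 2 ∧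
      2 * (t * e i - 2) ≤ ∑ j, (t * (e j : ℝ) - 2)} := by
    unfold fujF EffF
    simp only [hfr, Nat.cast_one, one_mul]
  rw [← hfuj]
  obtain ⟨C₁, hC₁, hle⟩ := hdF_le (F := F) hHID hSST e he (fun i => (h2e i).le)
  obtain ⟨C₀, hfin⟩ := KH.final F (fun _ : Ix N => F) (by omega) e he
    (fun i => by simp only [hfr, one_mul]; exact h2e i)
  obtain ⟨f, hf⟩ : ∃ f : ℝ, f = fujF F (fun _ : Ix N => F) e := ⟨_, rfl⟩
  rw [← hf] at hfin ⊢
  have hcard : Fintype.card (Ix N) - 1 = N + 2 := by simp [Ix]; omega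
  rw [hcard] at hfin
  obtain ⟨κ, hκ⟩ : ∃ κ : ℝ, κ = Real.sqrt (C₁ + 1) := ⟨_, rfl⟩
  have hκ1 : 1 ≤ κ := by
    rw [hκ]
    exact Real.one_le_sqrt.2 (by linarith)
  have hκ2 : κ ^ 2 = C₁ + 1 := by
    rw [hκ]
    exact Real.sq_sqrt (by linarith)
  have hlogκ : 0 ≤ Real.log κ := Real.log_nonneg hκ1
  refine ⟨|C₀| * κ ^ f * (1 + Real.log κ) ^ (N + 2), fun T hT => ?_⟩
  have hT0 : 0 < T := by linarith
  have hlogT : 0 ≤ Real.log T := Real.log_nonneg hT
  have hT1 : 1 ≤ κ * T := one_le_mul_of_one_le_of_one_le hκ1 hT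
  obtain ⟨h1, h2⟩ := hfin (κ * T) hT1
  obtain ⟨g, hg⟩ : ∃ g : (Fin N → F) → Set (Al (fun _ : Ix N => F) × Al (fun _ : Ix N => F)),
    g = fun t => {P' | EqF F (PX (pt t)) P'} := ⟨_, rfl⟩
  have hmaps : ∀ t ∈ {t ∈ U F N | Height.mulHeight
      (fun m : Mon (fun i => 2 * e i) => mX (pt t) m) ≤ T ^ 2},
      g t ∈ PT F (fun _ : Ix N => F) e (κ * T) := by
    rintro t ⟨ht, hh⟩
    have hb := bX_pt ht
    refine ⟨PX (pt t), NDF_PX hb, by rw [hg], ?_⟩
    refine (hle (pt t) hb (exists_mon e (fun i => (h2e i).le) (pt t) hb)).trans ?_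
    rw [mul_pow, hκ2]
    have h3 := mul_le_mul_of_nonneg_left hh hC₁.le
    nlinarith [sq_nonneg T]
  have hinj : Set.InjOn g {t ∈ U F N | Height.mulHeight
      (fun m : Mon (fun i => 2 * e i) => mX (pt t) m) ≤ T ^ 2} := by
    rintro t _ t' _ h
    apply pt_inj
    have h3 : PX (pt t') ∈ g t := by
      rw [h, hg]
      exact EqF.refl _
    rw [hg] at h3
    exact h3
  refine ⟨Set.Finite.of_injOn hmaps hinj h1, ?_⟩
  have h3 : ({t ∈ U F N | Height.mulHeight
      (fun m : Mon (fun i => 2 * e i) => mX (pt t) m) ≤ T ^ 2}.ncard : ℝ) ≤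
      ((PT F (fun _ : Ix N => F) e (κ * T)).ncard : ℝ) := by
    exact_mod_cast Set.ncard_le_ncard_of_injOn g hmaps hinj h1
  refine (h3.trans h2).trans ?_
  have h4 : 1 + Real.log (κ * T) ≤ (1 + Real.log κ) * (1 + Real.log T) := by
    rw [Real.log_mul (by linarith) (by linarith)]
    nlinarith [mul_nonneg hlogκ hlogT]
  have h5 : 0 ≤ 1 + Real.log (κ * T) := by
    have := Real.log_nonneg hT1
    linarith
  have h6 : (κ * T) ^ f = κ ^ f * T ^ f := Real.mul_rpow (by linarith) hT0.le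
  calc C₀ * (κ * T) ^ f * (1 + Real.log (κ * T)) ^ (N + 2)
      ≤ |C₀| * (κ * T) ^ f * ((1 + Real.log κ) * (1 + Real.log T)) ^ (N + 2) := by
        refine mul_le_mul (mul_le_mul_of_nonneg_right (le_abs_self _) ?_)
          (pow_le_pow_left₀ h5 h4 _) (pow_nonneg h5 _) ?_
        · exact Real.rpow_nonneg (by linarith) _
        · exact mul_nonneg (abs_nonneg _) (Real.rpow_nonneg (by linarith) _)
    _ = _ := by rw [h6, mul_pow]; ring

end Pool.Agent.Y714.KI
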